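import Pool.Agent.H479.Y.Fac
import Pool.Agent.H479.Y.Mb

/-!
# Distinct zeros of several Dirichlet L-functions and the mean square of long prime polynomials

No hypothesis is assumed.  Let `S` be a set of `r ≥ 1` Dirichlet characters modulo `q`; we count the
zeros of the product `∏_{χ ∈ S} L(s, χ)` with ordinate in `(T, 2T]`: `N` with multiplicity, `Nd` the
distinct ones.  Let

  `P(u, t) = ∑ Λ(n) (∑_{χ ∈ S} χ(n)) n^(-1/2 - it) exp(-(u - log n)² / 2)`

and let `M(α, T)` be the mean square of `P(α log T, t)` over `T ≤ t ≤ 2T`, normalised such that the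
diagonal terms give `α`; the conjecture is `M(α, T) = min(α, 1) + o(1)`.  For all characters
modulo `q` the polynomial is `φ(q)` times the sum over the prime powers `n ≡ 1 (mod q)`.

For `b ≥ 1` and large `T`

  `Nd(T, 2T) ≥ (1 - (r-1)/(2b) - 1/(6b²) - (1/b) ∫_k^b (1 - α/b)(M(α, T) - min(α, 1)) dα - ε) N(T, 2T)`.

So multiple zeros, and coincidences between the zeros of different L-functions, are bounded by the
excess of the mean square of one long polynomial over primes.  If the upper half of the conjecture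
holds in the mean for all lengths, then almost all zeros of the product are distinct, even simple
and on the critical line.
-/

open MeasureTheory Filter Topology Complex

namespace Pool.Agent.Results.MP_f259ea_nt.DistinctFromPrimes

variable {q : ℕ} [NeZero q]

/-- the nontrivial zeros of the product `∏_{χ ∈ S} L(s, χ)` with imaginary part in `(T₁, T₂]` -/
def zeros (S : Finset (DirichletCharacter ℂ q)) (T₁ T₂ : ℝ) : Set ℂ :=
  {s : ℂ | 0 < s.re ∧ s.re < 1 ∧ T₁ < s.im ∧ s.im ≤ T₂ ∧ ∃ χ ∈ S, χ.LFunction s = 0}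

/-- the multiplicity of `s` as a zero of the product -/
noncomputable def mult (S : Finset (DirichletCharacter ℂ q)) (s : ℂ) : ℕ :=
  ∑ χ ∈ S, analyticOrderNatAt χ.LFunction s

/-- the number of zeros, counted with multiplicity -/
noncomputable def N (S : Finset (DirichletCharacter ℂ q)) (T₁ T₂ : ℝ) : ℕ :=
  ∑ᶠ s ∈ zeros S T₁ T₂, mult S s

/-- the number of distinct zeros -/
noncomputable def Nd (S : Finset (DirichletCharacter ℂ q)) (T₁ T₂ : ℝ) : ℕ :=
  (zeros S T₁ T₂).ncard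

/-- the number of simple zeros on the critical line -/
noncomputable def Ns (S : Finset (DirichletCharacter ℂ q)) (T₁ T₂ : ℝ) : ℕ :=
  {s ∈ zeros S T₁ T₂ | s.re = 1 / 2 ∧ mult S s = 1}.ncard

/-- the prime polynomial `∑ Λ(n) (∑_{χ ∈ S} χ(n)) n^(-1/2 - it) exp(-(u - log n)² / 2)` -/
noncomputable def P (S : Finset (DirichletCharacter ℂ q)) (u t : ℝ) : ℂ :=
  ∑' n : ℕ, (ArithmeticFunction.vonMangoldt n : ℂ) * (∑ χ ∈ S, χ (n : ZMod q)) *
    (n : ℂ) ^ (-(1 / 2 + t * I)) * Real.exp (-(u - Real.log n) ^ 2 / 2)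

/-- the normalised mean square of the prime polynomial of length about `T^α`:
`(r √π T log T)⁻¹ ∫_T^{2T} |P(α log T, t)|² dt`, `r` the number of characters -/
noncomputable def M (S : Finset (DirichletCharacter ℂ q)) (α T : ℝ) : ℝ :=
  1 / (S.card * (Real.sqrt Real.pi * (T * Real.log T))) *
    ∫ t in T..(2 * T), ‖P S (α * Real.log T) t‖ ^ 2

/-- a window: bounded, even, nonnegative, supported on `[-1/2, 1/2]`, of integral `1` -/
structure Window (w : ℝ → ℝ) : Prop where
  measurable : Measurable w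
  nonneg : ∀ x, 0 ≤ w x
  bounded : ∃ B : ℝ, ∀ x, w x ≤ B
  even : ∀ x, w (-x) = w x
  support : ∀ x, 1 / 2 < |x| → w x = 0
  integral : ∫ x, w x = 1

/-- the self-convolution of the window -/
noncomputable def W (w : ℝ → ℝ) (a : ℝ) : ℝ := ∫ t, w t * w (a - t)

/-- the value of the average on the conjecture -/
noncomputable def C (r : ℝ) (w : ℝ → ℝ) (b : ℝ) : ℝ :=
  (r * W w 0 + 2 * ∫ α in (0 : ℝ)..b, W w (α / b) * min α 1) / b

/-- the excess of the mean square, averaged with the window -/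
noncomputable def D (S : Finset (DirichletCharacter ℂ q)) (w : ℝ → ℝ) (b k T : ℝ) : ℝ :=
  2 / b * ∫ α in k..b, W w (α / b) * (M S α T - min α 1)

/-- the upper half of the conjecture for the lengths between `T` and `T^A`, in the mean:
`limsup ∫_a^b M(α, T) dα ≤ b - a` for all `1 ≤ a < b ≤ A` -/
def UpperHalf (S : Finset (DirichletCharacter ℂ q)) (A : ℝ) : Prop :=
  ∀ a b : ℝ, 1 ≤ a → a < b → b ≤ A → ∀ ε : ℝ, 0 < ε →
    ∀ᶠ T in atTop, ∫ α in a..b, M S α T ≤ b - a + ε

lemma zeros_eq (S : Finset (DirichletCharacter ℂ q)) {T : ℝ} (hT : 1 ≤ T) :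
    zeros S T (2 * T) = (H479.Y.ZS S T : Set ℂ) := H479.Y.ZS_set S hT

lemma mult_eq (S : Finset (DirichletCharacter ℂ q)) {T : ℝ} (hT : 1 ≤ T) {s : ℂ}
    (hs : s ∈ H479.Y.ZS S T) : mult S s = H479.Y.mS S s := H479.Y.mS_eq S hT hs

lemma N_eq (S : Finset (DirichletCharacter ℂ q)) {T : ℝ} (hT : 1 ≤ T) :
    (N S T (2 * T) : ℝ) = H479.Y.NZ (H479.Y.ZS S T) (H479.Y.mS S) := by
  unfold N
  rw [zeros_eq S hT, finsum_mem_coe_finset]
  unfold H479.Y.NZ
  push_cast
  exact Finset.sum_congr rfl fun s hs => by rw [mult_eq S hT hs]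

lemma Nd_eq (S : Finset (DirichletCharacter ℂ q)) {T : ℝ} (hT : 1 ≤ T) :
    (Nd S T (2 * T) : ℝ) = ((H479.Y.ZS S T).card : ℝ) := by
  unfold Nd
  rw [zeros_eq S hT, Set.ncard_coe_finset]

lemma Ns_eq (S : Finset (DirichletCharacter ℂ q)) {T : ℝ} (hT : 1 ≤ T) :
    (Ns S T (2 * T) : ℝ) = ((H479.Y.Z1 (H479.Y.ZS S T) (H479.Y.mS S)).card : ℝ) := by
  classical
  unfold Ns H479.Y.Z1
  rw [← Set.ncard_coe_finset, zeros_eq S hT]
  congr 2
  ext s
  simp only [Finset.coe_filter, Set.mem_setOf_eq, Finset.mem_coe]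
  constructor
  · rintro ⟨h1, h2, h3⟩
    exact ⟨h1, h2, by rw [← mult_eq S hT h1]; exact h3⟩
  · rintro ⟨h1, h2, h3⟩
    exact ⟨h1, h2, by rw [mult_eq S hT h1]; exact h3⟩

lemma M_eq (S : Finset (DirichletCharacter ℂ q)) (α T : ℝ) :
    M S α T = H479.Y.fS S T α := by
  unfold M H479.Y.fS H479.Y.Mn
  have h : (∫ t in T..(2 * T), ‖P S (α * Real.log T) t‖ ^ 2) =
      ∫ t in T..(2 * T), ‖H370.PP (H479.Y.aS S) (α * Real.log T) t‖ ^ 2 := by
    congr 1
    funext t
    rw [H479.Y.PP_norm]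
    rfl
  rw [h, one_div, one_div, mul_inv]
  ring

lemma Window.win {w : ℝ → ℝ} (hw : Window w) : H479.U.Win w :=
  ⟨hw.1, hw.2, hw.3, hw.4, hw.5, hw.6⟩

/-- **Distinct zeros of several L-functions and the mean square of long prime polynomials.** -/
theorem result (q : ℕ) [NeZero q] (S : Finset (DirichletCharacter ℂ q)) (hS : S.Nonempty) :
    -- the triangular window
    (∀ b k ε : ℝ, 1 ≤ b → 0 ≤ k → k ≤ 1 → 0 < ε → ∃ T₀ : ℝ, ∀ T : ℝ, T₀ ≤ T →
      (1 - (S.card - 1) / (2 * b) - 1 / (6 * b ^ 2) -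
        1 / b * (∫ α in k..b, (1 - α / b) * (M S α T - min α 1)) - ε) * N S T (2 * T) ≤
          Nd S T (2 * T)) ∧
    -- every window
    (∀ w : ℝ → ℝ, Window w → ∀ b k ε : ℝ, 0 < b → 0 ≤ k → k ≤ 1 → k ≤ b → 0 < ε →
      ∃ T₀ : ℝ, ∀ T : ℝ, T₀ ≤ T →
        (3 - C S.card w b - D S w b k T - ε) / 2 * N S T (2 * T) ≤ Nd S T (2 * T)) ∧
    -- the upper half up to the length `T^A`
    (∀ A : ℝ, 1 < A → UpperHalf S A → ∀ ε : ℝ, 0 < ε → ∀ᶠ T in atTop,
        (1 - (S.card - 1) / (2 * A) - 1 / (6 * A ^ 2) - ε) * N S T (2 * T) ≤ Nd S T (2 * T)) ∧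
    -- the upper half for all lengths
    ((∀ A : ℝ, UpperHalf S A) →
      Tendsto (fun T => (Nd S T (2 * T) : ℝ) / N S T (2 * T)) atTop (𝓝 1) ∧
      Tendsto (fun T => (Ns S T (2 * T) : ℝ) / N S T (2 * T)) atTop (𝓝 1)) ∧
    -- for all characters only the primes `≡ 1 (mod q)` enter
    (∀ u t : ℝ, P (Finset.univ : Finset (DirichletCharacter ℂ q)) u t = q.totient *
      ∑' n : ℕ, if (n : ZMod q) = 1 then (ArithmeticFunction.vonMangoldt n : ℂ) *
        (n : ℂ) ^ (-(1 / 2 + t * I)) * Real.exp (-(u - Real.log n) ^ 2 / 2) else 0) := by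
  have hMB : H479.Y.S_MB := H479.Y.mb
  have hr : (0 : ℝ) < S.card := by exact_mod_cast hS.card_pos
  have hMn : ∀ α T, M S α T = H479.Y.Mn (H479.Y.aS S) T α / S.card := fun α T => M_eq S α T
  have hU : ∀ A, UpperHalf S A → H479.Y.UBf (H479.Y.fS S) A := by
    intro A h a b ha hab hbA ε hε
    filter_upwards [h a b ha hab hbA ε hε] with T hT
    simp_rw [← M_eq]
    exact hT
  refine ⟨?_, ?_, ?_, ?_, ?_⟩
  · intro b k ε hb hk0 hk1 hε
    obtain ⟨T0, hT0, h⟩ := H479.Y.tent_S hMB S hS b k ε hb hk0 hk1 hε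
    refine ⟨T0, fun T hT => ?_⟩
    have h1T : 1 ≤ T := by linarith
    have h1 := (h T hT).2
    rw [N_eq S h1T, Nd_eq S h1T]
    unfold H479.Y.TT at h1
    simp_rw [hMn]
    exact h1
  · intro w hw b k ε hb hk0 hk1 hkb hε
    obtain ⟨T0, hT0, h⟩ := H479.Y.main_S1 hMB S hS hw.win b k ε hb hk0 hk1 hkb hε
    refine ⟨T0, fun T hT => ?_⟩
    have h1T : 1 ≤ T := by linarith
    have h1 := (h T hT).2
    rw [N_eq S h1T, Nd_eq S h1T]
    have e : D S w b k T = H479.Y.DD' w S.card b k T (H479.Y.aS S) := by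
      unfold D H479.Y.DD'
      simp_rw [hMn]
      rfl
    have e2 : C S.card w b = H479.Y.CC w S.card b := rfl
    rw [e, e2]
    linarith
  · intro A hA hUA ε hε
    filter_upwards [H479.Y.cons_finite hMB S hS A hA (hU A hUA) ε hε,
      eventually_ge_atTop (1 : ℝ)] with T hT h1T
    rw [N_eq S h1T, Nd_eq S h1T]
    exact hT.2
  · intro hall
    have hpos := H479.Y.N_pos S hS
    have hdle : ∀ T : ℝ, 1 ≤ T → ((H479.Y.ZS S T).card : ℝ) ≤
        H479.Y.NZ (H479.Y.ZS S T) (H479.Y.mS S) := by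
      intro T hT
      have h1 : ((H479.Y.ZS S T).card : ℝ) = ∑ s ∈ H479.Y.ZS S T, (1 : ℝ) := by simp
      rw [h1]
      exact Finset.sum_le_sum fun s hs => by
        have := (H479.Y.sys_ZS S hT).pos s hs
        exact_mod_cast this
    constructor
    · rw [Metric.tendsto_nhds]
      intro ε hε
      filter_upwards [hpos, eventually_ge_atTop (1 : ℝ),
        H479.Y.cons_all hMB S hS (fun A => hU A (hall A)) (ε / 2) (by positivity)]
        with T h0 h1T h2
      have h3 := hdle T h1T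
      rw [← N_eq S h1T] at h0 h2 h3
      rw [← Nd_eq S h1T] at h2 h3
      rw [Real.dist_eq, abs_lt]
      have h4 : (Nd S T (2 * T) : ℝ) / N S T (2 * T) ≤ 1 := (div_le_one h0).2 h3
      have h5 : 1 - ε / 2 ≤ (Nd S T (2 * T) : ℝ) / N S T (2 * T) := by
        rw [le_div_iff₀ h0]
        exact h2.2
      constructor <;> linarith
    · rw [Metric.tendsto_nhds]
      intro ε hε
      filter_upwards [hpos, eventually_ge_atTop (1 : ℝ),
        H479.Y.cons_all hMB S hS (fun A => hU A (hall A)) (ε / 2) (by positivity)]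
        with T h0 h1T h2
      have h3 := H479.Y.Z1_le S h1T
      rw [← N_eq S h1T] at h0 h2 h3
      rw [← Ns_eq S h1T] at h2 h3
      rw [Real.dist_eq, abs_lt]
      have h4 : (Ns S T (2 * T) : ℝ) / N S T (2 * T) ≤ 1 := (div_le_one h0).2 h3
      have h5 : 1 - ε / 2 ≤ (Ns S T (2 * T) : ℝ) / N S T (2 * T) := by
        rw [le_div_iff₀ h0]
        exact h2.1
      constructor <;> linarith
  · intro u t
    unfold P
    rw [← tsum_mul_left]
    congr 1
    funext n
    have h := DirichletCharacter.sum_characters_eq ℂ (n : ZMod q)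
    rw [h]
    split_ifs
    · push_cast
      ring
    · simp

end Pool.Agent.Results.MP_f259ea_nt.DistinctFromPrimes
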