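import Pool.Agent.H440.OZ.Fin
import Pool.Agent.H440.OZ.Cst

/-!
# Distinct zeros of primitive Dirichlet L-functions up to any power of the conductor

All primitive Dirichlet characters `χ` of conductor `q`, `X < q ≤ Y`, are counted with the weight
`1/q²`.  Let `τ ≥ 0` be any real number and `h = (2 + τ)/(1 + τ)`, so that `X² T = (X T)^h` for
`T = X^τ`.  For the heights `T` up to `X ^ τ` the number of distinct zeros of `L(s, χ)` with
`T < Im s ≤ 2T` is on average at least `(3 - c(h, γ) - ε)/2` times the number of these zeros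
counted with multiplicity, for every `γ` in `(0, π)`, where
`c(h, γ) = R(0)/h + 2 h ∫ α in 0..1, min(α, 1/h) R(α)` and `R` is the self-convolution of the
cosine window `γ cos(γ x)/(2 sin(γ/2))` on `[-1/2, 1/2]`; a closed form is given below.

This is the constant of the pair correlation with the form factor `min(|α|, 1)` in the whole range
`|α| < h` of the large sieve inequality (`X² T` terms), while the earlier results for polynomial
heights (`Pool.Graph.R_pool_sql_team_seeded_63374d34.Results.*.PolynomialHeights`) have `|α|` in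
place of `min(|α|, 1)`.

The proof: beyond the length `X T` the primes are compared with Selberg's model of the primes of
level `R = length / (X T)`, whose sums at all Farey fractions with denominators `> R` are
negligible, and the large sieve inequality with the sharp constant is applied to the difference of
the two; the mean square of the difference is smaller by the factor `log (X T) / log (length)`.
The lower bound for the zeros is the trace inequality of `Pool.Agent.H385R2` (helper385), with no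
hypothesis on zeros off the line.
-/

set_option autoImplicit false

namespace Pool.Agent.Results.MP_f259ea_nt.DistinctSharpBandwidth

/-- The Dirichlet L-function of a character modulo `q` (the value for `q = 0` is never used). -/
noncomputable def Lfun (q : ℕ) (χ : DirichletCharacter ℂ q) : ℂ → ℂ :=
  if h : q = 0 then 0 else
    haveI : NeZero q := ⟨h⟩
    DirichletCharacter.LFunction χ

/-- The zeros of `F` in the open critical strip with ordinate in `(T, 2T]`. -/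
def zeros (F : ℂ → ℂ) (T : ℝ) : Set ℂ :=
  {s : ℂ | 0 < s.re ∧ s.re < 1 ∧ T < s.im ∧ s.im ≤ 2 * T ∧ F s = 0}

/-- The number of these zeros, counted with multiplicity. -/
noncomputable def N (F : ℂ → ℂ) (T : ℝ) : ℕ := ∑ᶠ s ∈ zeros F T, analyticOrderNatAt F s

/-- The number of the distinct zeros among them. -/
noncomputable def Nd (F : ℂ → ℂ) (T : ℝ) : ℕ := (zeros F T).ncard

/-- The sum of `f q χ / q²` over all primitive Dirichlet characters `χ` of conductor `q`,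
`X < q ≤ Y`. -/
noncomputable def fam (X Y : ℕ) (f : (q : ℕ) → DirichletCharacter ℂ q → ℕ) : ℝ :=
  ∑ q ∈ Finset.Ioc X Y, (1 / (q : ℝ) ^ 2) *
    ∑ᶠ χ : {χ : DirichletCharacter ℂ q // χ.IsPrimitive}, (f q χ : ℝ)

/-- The constant `R(0)/h + 2 h ∫ α in 0..1, min(α, 1/h) R(α)` in closed form. -/
noncomputable def c (h γ : ℝ) : ℝ :=
  (γ / (2 * Real.sin (γ / 2))) ^ 2 / 2 *
    ((1 + Real.sin γ / γ) / h + 2 * h / γ ^ 2 * ((1 - 1 / h) * Real.cos (γ / h) - 1) +
      2 * h / γ ^ 3 * (2 * Real.sin (γ / h) + Real.sin (γ * (1 - 1 / h)) - Real.sin γ) +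
      2 / γ ^ 2 * (1 - Real.cos γ))

/-- **Main theorem.**  (1) For every `τ ≥ 0`, `γ ∈ (0, π)` and `ε > 0` there are `K`, `η > 0` and
`X₀` such that for `X ≥ X₀`, `K X ≤ Y ≤ X ^ (1 + η)` and `4 (log X)² ≤ T ≤ X ^ τ` the average over
all primitive Dirichlet characters of conductor in `(X, Y]`, with weight `1/q²`, of the number
of distinct zeros with `0 < Re s < 1`, `T < Im s ≤ 2T`, is at least
`(3 - c((2 + τ)/(1 + τ), γ) - ε)/2` times that of the number of these zeros counted with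
multiplicity.
(2) The same with the proportion `1 - ((1 + τ)/(2 + τ))²/6 - ε` (the window with `γ → 0`).
(3) For `1 < h ≤ 2` the constant `c (h, √2 h)` is smaller than the constant
`h/2 + cot(h/√2)/√2` of the earlier result for polynomial heights.
(4) Numerical values: for `h → 2` (`T ≤ X^τ`, `τ → 0`) the proportion
tends to at least `0.9661`, for `τ = 1` it is `≥ 0.9328 - ε/2`, for `τ = 2` it is `≥ 0.91215 - ε/2`. -/
theorem result :
    (∀ τ γ ε : ℝ, 0 ≤ τ → 0 < γ → γ < Real.pi → 0 < ε → ∃ K η X0 : ℝ, 1 ≤ K ∧ 0 < η ∧ 1 ≤ X0 ∧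
      ∀ (X Y : ℕ) (T : ℝ), X0 ≤ X → K * X ≤ Y → (Y : ℝ) ≤ (X : ℝ) ^ (1 + η) →
        4 * (Real.log X) ^ 2 ≤ T → T ≤ (X : ℝ) ^ τ →
        (3 - c ((2 + τ) / (1 + τ)) γ - ε) / 2 * fam X Y (fun q χ => N (Lfun q χ) T) ≤
          fam X Y (fun q χ => Nd (Lfun q χ) T)) ∧
    (∀ τ ε : ℝ, 0 ≤ τ → 0 < ε → ∃ K η X0 : ℝ, 1 ≤ K ∧ 0 < η ∧ 1 ≤ X0 ∧
      ∀ (X Y : ℕ) (T : ℝ), X0 ≤ X → K * X ≤ Y → (Y : ℝ) ≤ (X : ℝ) ^ (1 + η) →
        4 * (Real.log X) ^ 2 ≤ T → T ≤ (X : ℝ) ^ τ →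
        (1 - ((1 + τ) / (2 + τ)) ^ 2 / 6 - ε) * fam X Y (fun q χ => N (Lfun q χ) T) ≤
          fam X Y (fun q χ => Nd (Lfun q χ) T)) ∧
    (∀ h : ℝ, 1 < h → h ≤ 2 →
      c h (Real.sqrt 2 * h) < h / 2 + Real.cot (h / Real.sqrt 2) / Real.sqrt 2) ∧
    c 2 (9 / 4) ≤ 1.0678 ∧ c (3 / 2) (39 / 20) ≤ 1.1344 ∧ c (4 / 3) (9 / 5) ≤ 1.1757 := by
  have main : ∀ τ γ ε : ℝ, 0 ≤ τ → 0 < γ → γ < Real.pi → 0 < ε → ∃ K η X0 : ℝ, 1 ≤ K ∧ 0 < η ∧
      1 ≤ X0 ∧
      ∀ (X Y : ℕ) (T : ℝ), X0 ≤ X → K * X ≤ Y → (Y : ℝ) ≤ (X : ℝ) ^ (1 + η) →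
        4 * (Real.log X) ^ 2 ≤ T → T ≤ (X : ℝ) ^ τ →
        (3 - c ((2 + τ) / (1 + τ)) γ - ε) / 2 * fam X Y (fun q χ => N (Lfun q χ) T) ≤
          fam X Y (fun q χ => Nd (Lfun q χ) T) := by
    intro τ γ ε hτ h0 hπ hε
    obtain ⟨K, η, X0, hK, hη, hX0, h⟩ := Pool.Agent.H440.OZ.fin_main τ γ ε hτ h0 hπ hε
    exact ⟨K, η, X0, hK, hη, hX0, fun X Y T a1 a2 a3 a4 a5 => (h X Y T a1 a2 a3 a4 a5).2⟩
  refine ⟨main, ?_, fun h h1 h2 => Pool.Agent.H440.OZ.cN_lt h h1 h2,
    Pool.Agent.H440.OZ.LNum.num2_main.1, Pool.Agent.H440.OZ.LNum.num2_main.2.1,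
    Pool.Agent.H440.OZ.LNum.num2_main.2.2⟩
  intro τ ε hτ hε
  have hh1 : 1 ≤ (2 + τ) / (1 + τ) := by
    rw [le_div_iff₀ (by linarith)]; linarith
  obtain ⟨γ, h0, hπ, hc⟩ := Pool.Agent.H440.OZ.cN_clean ((2 + τ) / (1 + τ)) (ε / 2) hh1
    (by linarith)
  obtain ⟨K, η, X0, hK, hη, hX0, H⟩ := main τ γ (ε / 2) hτ h0 hπ (by linarith)
  refine ⟨K, η, X0, hK, hη, hX0, fun X Y T a1 a2 a3 a4 a5 => le_trans ?_ (H X Y T a1 a2 a3 a4 a5)⟩
  have hfam : 0 ≤ fam X Y (fun q χ => N (Lfun q χ) T) := by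
    unfold fam
    refine Finset.sum_nonneg fun q _ => mul_nonneg (by positivity) ?_
    exact finsum_nonneg fun χ => Nat.cast_nonneg _
  apply mul_le_mul_of_nonneg_right _ hfam
  have e : 1 / ((2 + τ) / (1 + τ)) = (1 + τ) / (2 + τ) := one_div_div _ _
  rw [e] at hc
  have hc2 : c ((2 + τ) / (1 + τ)) γ ≤ 1 + ((1 + τ) / (2 + τ)) ^ 2 / 3 + ε / 2 := hc
  linarith

end Pool.Agent.Results.MP_f259ea_nt.DistinctSharpBandwidth
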