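import Pool.Agent.H293.CP.Fin

set_option autoImplicit false

/-!
# Primes in short intervals, sets of Dirichlet characters, and almost all zeros simple, critical and not shared

No hypothesis is assumed.  `X` is a nonempty set of Dirichlet characters modulo `q`, `D` its number of elements, and
`F_X(x) = ∑_{χ ∈ X} ψ(x,χ)`, minus `x` if the principal character belongs to `X`; for the set of all characters
`F_X(x) = φ(q) ψ(x;q,1) - x`.  `V(T,b) = (T/log² T) ∫_T^{T^b} |F_X(x+x/T) - F_X(x)|² dx/x²`.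

The smallest possible growth of `V` in `b`, `V(T,b) ≤ (D+o(1)) b`, is equivalent to the Riemann hypothesis for the
functions `L(s,χ)`, `χ ∈ X`, together with: almost all zeros of the product of these functions are simple, belong to
one of the functions only, and are separated.  It is inherited by all sets of characters which induce members of `X`.
-/

namespace Pool.Agent.Results.MP_f259ea_nt.PrimeVarianceOfCharacterSets

open MeasureTheory Filter Topology Set
open DirichletCharacter (LFunction changeLevel)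

section definitions

variable {q : ℕ} [NeZero q]

/-- `ψ(x,χ) = ∑_{n ≤ x} Λ(n) χ(n)` -/
noncomputable def psi (χ : DirichletCharacter ℂ q) (x : ℝ) : ℂ :=
  ∑ n ∈ Finset.Icc 1 ⌊x⌋₊, ((ArithmeticFunction.vonMangoldt n : ℝ) : ℂ) * χ (n : ZMod q)

open Classical in
/-- `F_X(x) = ∑_{χ ∈ X} ψ(x,χ)`, minus `x` if the principal character belongs to `X` -/
noncomputable def F (X : Finset (DirichletCharacter ℂ q)) (x : ℝ) : ℂ :=
  (∑ χ ∈ X, psi χ x) - if (1 : DirichletCharacter ℂ q) ∈ X then (x : ℂ) else 0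

/-- `V(T,b) = (T/log² T) ∫_T^{T^b} |F_X(x+x/T) - F_X(x)|² dx/x²` -/
noncomputable def V (X : Finset (DirichletCharacter ℂ q)) (T b : ℝ) : ℝ :=
  T / Real.log T ^ 2 * ∫ x in T..(T ^ b), ‖F X (x + x / T) - F X x‖ ^ 2 / x ^ 2

/-- `limsup_{b → ∞} limsup_{T → ∞} V(T,b)/b ≤ M` -/
def UpperMean (X : Finset (DirichletCharacter ℂ q)) (M : ℝ) : Prop :=
  ∀ ε : ℝ, 0 < ε → ∃ b0 : ℝ, ∀ b : ℝ, b0 ≤ b → ∀ᶠ T : ℝ in atTop, V X T b ≤ (M + ε) * b

/-- `V(T,b)/b → M` as `T → ∞` and then `b → ∞` -/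
def ExactMean (X : Finset (DirichletCharacter ℂ q)) (M : ℝ) : Prop :=
  ∀ ε : ℝ, 0 < ε → ∃ b0 : ℝ, ∀ b : ℝ, b0 ≤ b → ∀ᶠ T : ℝ in atTop, |V X T b - M * b| ≤ ε * b

/-- the zeros of `L(s,χ)`, `χ ∈ X`, in the critical strip are on the critical line -/
def GRH (X : Finset (DirichletCharacter ℂ q)) : Prop :=
  ∀ χ ∈ X, ∀ s : ℂ, 0 < s.re → s.re < 1 → LFunction χ s = 0 → s.re = 1 / 2

/-- the multiplicity of `s` as a zero of the product of the `L(s,χ)`, `χ ∈ X` -/
noncomputable def mult (X : Finset (DirichletCharacter ℂ q)) (s : ℂ) : ℕ :=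
  ∑ χ ∈ X, analyticOrderNatAt (LFunction χ) s

/-- the zeros of the product in the critical strip with `|Im s| ≤ T` -/
def zeros (X : Finset (DirichletCharacter ℂ q)) (T : ℝ) : Set ℂ :=
  {s : ℂ | 0 < s.re ∧ s.re < 1 ∧ |s.im| ≤ T ∧ ∃ χ ∈ X, LFunction χ s = 0}

/-- the number of zeros of the product, with multiplicity -/
noncomputable def N (X : Finset (DirichletCharacter ℂ q)) (T : ℝ) : ℕ := ∑ᶠ s ∈ zeros X T, mult X s

/-- the number of pairs of zeros of the product (with multiplicity, diagonal included) whose ordinates differ by at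
most `2πβ/log T` -/
noncomputable def P (X : Finset (DirichletCharacter ℂ q)) (T β : ℝ) : ℕ :=
  ∑ᶠ p ∈ {p : ℂ × ℂ | p.1 ∈ zeros X T ∧ p.2 ∈ zeros X T ∧ |p.1.im - p.2.im| * Real.log T / (2 * Real.pi) ≤ β},
    mult X p.1 * mult X p.2

/-- the number (with multiplicity) of zeros of the product which are off the critical line, or multiple zeros of one
of the functions, or common zeros of two of the functions -/
noncomputable def B (X : Finset (DirichletCharacter ℂ q)) (T : ℝ) : ℕ :=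
  ∑ᶠ s ∈ {s : ℂ | s ∈ zeros X T ∧ (s.re ≠ 1 / 2 ∨ mult X s ≠ 1)}, mult X s

/-- `P(T,β) ≤ (M+ε) N(T)` for small `β` and large `T` -/
def Separated (X : Finset (DirichletCharacter ℂ q)) (M : ℝ) : Prop :=
  ∀ ε : ℝ, 0 < ε → ∃ β : ℝ, 0 < β ∧ ∀ᶠ T : ℝ in atTop, (P X T β : ℝ) ≤ (M + ε) * N X T

/-- the zeros of `L(s,χ)` in the critical strip with `T < Im s ≤ 2T` -/
def strip (χ : DirichletCharacter ℂ q) (T : ℝ) : Set ℂ :=
  {s : ℂ | 0 < s.re ∧ s.re < 1 ∧ T < s.im ∧ s.im ≤ 2 * T ∧ LFunction χ s = 0}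

/-- `N(T,2T)` -/
noncomputable def Nmul (χ : DirichletCharacter ℂ q) (T : ℝ) : ℝ :=
  ∑ᶠ s ∈ strip χ T, ((analyticOrderAt (LFunction χ) s).toNat : ℝ)

/-- `N_d(T,2T)`, the number of distinct zeros -/
noncomputable def Ndis (χ : DirichletCharacter ℂ q) (T : ℝ) : ℝ := (strip χ T).ncard

/-- `N_s(T,2T)`, the number of simple zeros on the critical line -/
noncomputable def Nsim (χ : DirichletCharacter ℂ q) (T : ℝ) : ℝ :=
  {s : ℂ | s.re = 1 / 2 ∧ T < s.im ∧ s.im ≤ 2 * T ∧ analyticOrderAt (LFunction χ) s = 1}.ncard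

end definitions

section aux

open Pool.Agent.Q253.HV Pool.Agent.Q253.LQ Pool.Agent.Q253.CP Pool.Agent.H293.CP

variable {q : ℕ} [NeZero q]

lemma fX_log (X : Finset (DirichletCharacter ℂ q)) {x : ℝ} (hx : 0 < x) : fX X (Real.log x) = F X x := by
  unfold fX F
  rw [Real.exp_log hx]
  rfl

lemma V_eq (X : Finset (DirichletCharacter ℂ q)) {T : ℝ} (hT : 0 < T) (b : ℝ) : V X T b = VT (fX X) T b := by
  unfold V VT
  congr 1
  refine intervalIntegral.integral_congr fun x hx => ?_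
  have hTb : 0 < T ^ b := Real.rpow_pos_of_pos hT b
  have hx0 : 0 < x := lt_of_lt_of_le (lt_min hT hTb) hx.1
  have hx1 : 0 < x + x / T := by positivity
  rw [fX_log X hx0, fX_log X hx1]

lemma ev_iff (X : Finset (DirichletCharacter ℂ q)) (b : ℝ) (p : ℝ → Prop) :
    (∀ᶠ T : ℝ in atTop, p (V X T b)) ↔ ∀ᶠ T : ℝ in atTop, p (VT (fX X) T b) := by
  refine eventually_congr ?_
  filter_upwards [eventually_gt_atTop 0] with T hT
  rw [V_eq X hT b]

lemma um_iff (X : Finset (DirichletCharacter ℂ q)) (M : ℝ) : UpperMean X M ↔ UM (fX X) M := by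
  unfold UpperMean UM
  refine forall_congr' fun ε => forall_congr' fun _ => exists_congr fun b0 => forall_congr' fun b =>
    forall_congr' fun _ => ?_
  exact ev_iff X b fun v => v ≤ (M + ε) * b

lemma em_iff (X : Finset (DirichletCharacter ℂ q)) (M : ℝ) : ExactMean X M ↔ EM (fX X) M := by
  unfold ExactMean EM
  refine forall_congr' fun ε => forall_congr' fun _ => exists_congr fun b0 => forall_congr' fun b =>
    forall_congr' fun _ => ?_
  exact ev_iff X b fun v => |v - M * b| ≤ ε * b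

lemma grh_iff (X : Finset (DirichletCharacter ℂ q)) : GRH X ↔ ∀ χ ∈ X, GRHc χ := by
  constructor
  · intro h χ hχ s h1 h2 h0
    have := h χ hχ s (by linarith) h2 h0
    linarith
  · intro h χ hχ s h1 h2 h0
    exact strip_line (h χ hχ) h1 h2 h0

lemma sep_iff {X : Finset (DirichletCharacter ℂ q)} (hG : ∀ χ ∈ X, GRHc χ) (M : ℝ) :
    Separated X M ↔ SP (mX X) M := by
  unfold Separated SP
  refine forall_congr' fun ε => forall_congr' fun _ => exists_congr fun β => and_congr_right fun _ => ?_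
  refine eventually_congr (Eventually.of_forall fun T => ?_)
  have e1 : P X T β = Pm (mX X) T β := PX_eq hG T β
  have e2 : N X T = Nm (mX X) T := NX_eq hG T
  rw [e1, e2]

lemma all_chars (x : ℝ) : F (Finset.univ : Finset (DirichletCharacter ℂ q)) x =
    (q.totient : ℂ) * ((∑ n ∈ (Finset.Icc 1 ⌊x⌋₊).filter (fun n : ℕ => (n : ZMod q) = 1),
      ArithmeticFunction.vonMangoldt n : ℝ) : ℂ) - x := by
  classical
  unfold F psi
  rw [if_pos (Finset.mem_univ _), Finset.sum_comm]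
  congr 1
  push_cast
  rw [Finset.mul_sum, Finset.sum_filter]
  refine Finset.sum_congr rfl fun n _ => ?_
  rw [← Finset.mul_sum, DirichletCharacter.sum_characters_eq]
  split_ifs
  · ring
  · ring

end aux

/-- **Theorem.** -/
theorem result {q : ℕ} [NeZero q] :
    (∀ X : Finset (DirichletCharacter ℂ q), X.Nonempty →
      -- the criterion
      List.TFAE [UpperMean X X.card, ExactMean X X.card, GRH X ∧ Separated X 1] ∧
      -- its quantitative form
      (∀ η : ℝ, 0 ≤ η → UpperMean X (X.card * (1 + η)) →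
        GRH X ∧ Separated X (1 + 9 / 4 * η) ∧
        ∀ ε : ℝ, 0 < ε → ∀ᶠ T : ℝ in atTop, (B X T : ℝ) ≤ (9 / 4 * η + ε) * N X T) ∧
      -- the Riemann hypothesis
      List.TFAE [GRH X, ∀ b : ℝ, 1 < b → ∃ C : ℝ, ∀ᶠ T : ℝ in atTop, V X T b ≤ C,
        ∃ C : ℝ, ∀ b : ℝ, 1 ≤ b → ∀ᶠ T : ℝ in atTop, V X T b ≤ C * b] ∧
      -- inheritance, and the problem's inequality
      (UpperMean X X.card → ∀ (d : ℕ) [NeZero d] (h : d ∣ q) (Y : Finset (DirichletCharacter ℂ d)), Y.Nonempty →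
        (∀ ψ ∈ Y, changeLevel h ψ ∈ X) → ExactMean Y Y.card ∧
        ∀ ψ ∈ Y, ∀ ε : ℝ, 0 < ε → ∀ᶠ T : ℝ in atTop, (1 - ε) * Nmul ψ T ≤ Nsim ψ T ∧ Nsim ψ T ≤ Ndis ψ T)) ∧
    -- all characters: primes in one residue class
    ∀ x : ℝ, F (Finset.univ : Finset (DirichletCharacter ℂ q)) x =
      (q.totient : ℂ) * ((∑ n ∈ (Finset.Icc 1 ⌊x⌋₊).filter (fun n : ℕ => (n : ZMod q) = 1),
        ArithmeticFunction.vonMangoldt n : ℝ) : ℂ) - x := by
  refine ⟨fun X hX => ⟨?_, ?_, ?_, ?_⟩, all_chars⟩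
  · have h12 : ExactMean X X.card → UpperMean X X.card := fun h =>
      (um_iff X _).2 (Pool.Agent.H293.CP.um_of_em ((em_iff X _).1 h))
    have h23 : UpperMean X X.card → GRH X ∧ Separated X 1 := fun h => by
      obtain ⟨hG, hS⟩ := Pool.Agent.H293.CP.up X hX (η := 0) le_rfl (by simpa using (um_iff X _).1 h)
      exact ⟨(grh_iff X).2 hG, (sep_iff hG 1).2 (by simpa using hS)⟩
    have h31 : GRH X ∧ Separated X 1 → ExactMean X X.card := fun h => by
      have hG := (grh_iff X).1 h.1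
      exact (em_iff X _).2 (Pool.Agent.H293.CP.down X hX hG ((sep_iff hG 1).1 h.2))
    tfae_have 1 → 3 := h23
    tfae_have 3 → 2 := h31
    tfae_have 2 → 1 := h12
    tfae_finish
  · intro η hη h
    obtain ⟨hG, hS⟩ := Pool.Agent.H293.CP.up X hX hη ((um_iff X _).1 h)
    refine ⟨(grh_iff X).2 hG, (sep_iff hG _).2 hS, fun ε hε => ?_⟩
    filter_upwards [Pool.Agent.H293.CP.bad X hG hS ε hε] with T hT
    have e1 : B X T = Pool.Agent.Q253.CP.Bm (Pool.Agent.Q253.CP.mX X) T := Pool.Agent.Q253.CP.BX_eq hG T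
    have e2 : N X T = Pool.Agent.Q253.CP.Nm (Pool.Agent.Q253.CP.mX X) T := Pool.Agent.Q253.CP.NX_eq hG T
    rw [e1, e2]
    have e3 : (1 + 9 / 4 * η - 1 + ε : ℝ) = 9 / 4 * η + ε := by ring
    rwa [e3] at hT
  · tfae_have 1 → 3 := fun h => by
      obtain ⟨C, hC⟩ := Pool.Agent.Q253.CP.bdd_of_sys Q227.CP.t_WT
        (Pool.Agent.H293.CP.sys_grh X hX ((grh_iff X).1 h)) (Pool.Agent.Q253.CP.fX_le X)
      exact ⟨C, fun b hb => (ev_iff X b fun v => v ≤ C * b).2 (hC b hb)⟩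
    tfae_have 3 → 2 := fun ⟨C, hC⟩ b hb => ⟨C * b, hC b hb.le⟩
    tfae_have 2 → 1 := fun h => by
      refine (grh_iff X).2 (Pool.Agent.H293.CP.grh_of_bdd X fun b hb => ?_)
      obtain ⟨C, hC⟩ := h b hb
      exact ⟨C, (ev_iff X b fun v => v ≤ C).1 hC⟩
    tfae_finish
  · intro hU d _ h Y hY hYX
    obtain ⟨hG, hS⟩ := Pool.Agent.H293.CP.inherit h X hX Y hY hYX ((um_iff X _).1 hU)
    refine ⟨(em_iff Y _).2 (Pool.Agent.H293.CP.down Y hY hG hS), fun ψ hψ ε hε => ?_⟩
    refine Pool.Agent.Q253.CP.q1_of Pool.Agent.H293.CP.t_PF hY hG (fun ε hε => ?_) hψ hε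
    filter_upwards [Pool.Agent.H293.CP.bad Y hG hS ε hε] with T hT
    have e3 : (1 - 1 + ε : ℝ) = ε := by ring
    rwa [e3] at hT

end Pool.Agent.Results.MP_f259ea_nt.PrimeVarianceOfCharacterSets
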