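import Pool.Agent.H474.SET.Tr

/-!
# The SETS of zeros of products and of translates of Dirichlet L-functions

Unconditional.  `q i = 1` is allowed and gives the Riemann zeta function.
-/

set_option autoImplicit false

open Complex Filter Topology

namespace Pool.Agent.Results.MP_f259ea_nt.ZeroSets

/-- the number of the distinct points `s` with `0 < Re s < 1`, `T < Im s ≤ 2T` and the property
`P` -/
noncomputable def pts (P : ℂ → Prop) (T : ℝ) : ℝ :=
  ({s : ℂ | 0 < s.re ∧ s.re < 1 ∧ T < s.im ∧ s.im ≤ 2 * T ∧ P s}.ncard : ℝ)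

/-- the number `N_d(T, 2T)` of the distinct zeros of `F` -/
noncomputable def Nd (F : ℂ → ℂ) (T : ℝ) : ℝ := pts (fun s => F s = 0) T

/-- the main term of the number `N(T, 2T)` of the zeros of a Dirichlet L-function, counted with
multiplicity: `N(T, 2T) = (T / 2π) log T + O(T)` -/
noncomputable def main (T : ℝ) : ℝ := T / (2 * Real.pi) * Real.log T

/-- the L-function of a Dirichlet character -/
noncomputable abbrev Lf {q : ℕ} [NeZero q] (χ : DirichletCharacter ℂ q) : ℂ → ℂ :=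
  DirichletCharacter.LFunction χ

open Pool.Agent.H474.SET
open Pool.Agent.H474.SHP (UU UU_nn)
open H370 (zset)

lemma main_eq (T : ℝ) : main T = UU T := rfl

lemma Nd_eq (F : ℂ → ℂ) (T : ℝ) : Nd F T = ((zset F T (2 * T)).ncard : ℝ) := rfl

/-- the product -/
theorem product {ι : Type} [Fintype ι] {q : ι → ℕ} [∀ i, NeZero (q i)]
    (χ : ∀ i, DirichletCharacter ℂ (q i)) (hχ : ∀ i, (χ i).IsPrimitive) (t : ι → ℝ)
    (hne : ∀ i j, i ≠ j → (∃ n : ℕ, χ i n ≠ χ j n) ∨ t i ≠ t j) (hι : 2 ≤ Fintype.card ι)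
    {ε : ℝ} (hε : 0 < ε) :
    ∀ᶠ T : ℝ in atTop,
      (∑ i, Nd (Lf (χ i)) T) / Fintype.card ι +
        (1 / 48 - 1 / (6 * Fintype.card ι + 2) - ε) * main T ≤
        Nd (fun s => ∏ i, Lf (χ i) (s + I * t i)) T := by
  classical
  obtain ⟨W, hW⟩ : ∃ W : ℝ, W = ∑ i, |t i| := ⟨_, rfl⟩
  have hW0 : 0 ≤ W := by rw [hW]; exact Finset.sum_nonneg fun i _ => abs_nonneg _
  have hti : ∀ i, |t i| ≤ W := fun i => by
    rw [hW]; exact Finset.single_le_sum (fun j _ => abs_nonneg (t j)) (Finset.mem_univ i)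
  have hτ : ∀ i, 0 ≤ t i + W := fun i => by
    have h2 := neg_abs_le (t i)
    linarith [hti i]
  have hr0 : (0 : ℝ) < Fintype.card ι := by
    have : 0 < Fintype.card ι := by omega
    exact_mod_cast this
  have hr2 : (2 : ℝ) ≤ Fintype.card ι := by exact_mod_cast hι
  set r : ℝ := (Fintype.card ι : ℝ) with hr
  obtain ⟨η, hη, hη1⟩ : ∃ η : ℝ, 0 < η ∧ 10 * (1 + r) * η ≤ ε := by
    refine ⟨ε / (10 * (1 + r)), by positivity, ?_⟩
    rw [mul_div_assoc', div_le_iff₀ (by positivity)]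
    nlinarith
  have hmain := unionpair χ hχ (fun i => t i + W) hτ (fun i j hij => by
    rcases hne i j hij with ⟨n, hn⟩ | h
    · exact Or.inl fun h => hn (h n)
    · exact Or.inr fun h' => h (add_right_cancel h')) (by omega) (ε := η) hη
  have hcmp : ∀ᶠ T : ℝ in atTop, ∀ i, ((zset (Lf (χ i)) T (2 * T)).ncard : ℝ) ≤
      (zset (LS (χ i) (t i + W)) T (2 * T)).ncard + η * UU T :=
    eventually_all.2 fun i => cmp_ge (hχ i) _ hη
  have hsh : ∀ᶠ T : ℝ in atTop, ∀ i, ((zset (LS (χ i) (t i)) (2 * T + 0) (2 * T + 0 + W)).ncard : ℝ) ≤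
      η * UU T := eventually_all.2 fun i => short' (hχ i) (by norm_num) _ _ _ hη
  filter_upwards [hmain, hcmp, hsh, eventually_ge_atTop (W + 1)] with T hmain hcmp hsh hT
  obtain ⟨m1, m2⟩ := hmain
  have hU : 0 ≤ UU T := UU_nn (by linarith)
  rw [main_eq, Nd_eq]
  simp only [Nd_eq]
  -- finiteness
  have f1 : ∀ i, (zset (LS (χ i) (t i)) T (2 * T)).Finite := fun i =>
    fin_shift (hχ i) _ _ _ (by have := neg_abs_le (t i); linarith [hti i])
  have f2 : ∀ i, (zset (LS (χ i) (t i)) (2 * T + 0) (2 * T + 0 + W)).Finite := fun i =>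
    fin_shift (hχ i) _ _ _ (by have := neg_abs_le (t i); linarith [hti i])
  have f3 : ∀ i, (zset (LS (χ i) (t i + W)) T (2 * T)).Finite := fun i =>
    fin_shift (hχ i) _ _ _ (by linarith [hτ i])
  have eP : zset (fun s => ∏ i, Lf (χ i) (s + I * t i)) T (2 * T) = ⋃ i, zset (LS (χ i) (t i)) T (2 * T) := by
    ext s
    rw [Set.mem_iUnion]
    constructor
    · rintro ⟨g1, g2, g3, g4, g5⟩
      obtain ⟨i, -, hi⟩ := Finset.prod_eq_zero_iff.1 g5
      exact ⟨i, g1, g2, g3, g4, hi⟩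
    · rintro ⟨i, g1, g2, g3, g4, g5⟩
      exact ⟨g1, g2, g3, g4, Finset.prod_eq_zero (Finset.mem_univ i) g5⟩
  have h1 : (⋃ i, zset (LS (χ i) (t i + W)) T (2 * T)).ncard ≤
      ((⋃ i, zset (LS (χ i) (t i)) T (2 * T)) ∪
        ⋃ i, zset (LS (χ i) (t i)) (2 * T + 0) (2 * T + 0 + W)).ncard := by
    rw [← Set.ncard_image_of_injective _ (shift_inj W)]
    refine Set.ncard_le_ncard ?_ ((Set.finite_iUnion f1).union (Set.finite_iUnion f2))
    rintro _ ⟨s, hs, rfl⟩
    obtain ⟨i, g1, g2, g3, g4, g5⟩ := Set.mem_iUnion.1 hs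
    have g5' : LS (χ i) (t i) (s + I * W) = 0 := by
      rw [← g5]
      unfold LS
      congr 1
      push_cast; ring
    have k3 : 0 < (s + I * W).re := by rw [re_shift]; exact g1
    have k4 : (s + I * W).re < 1 := by rw [re_shift]; exact g2
    have k5 : T < (s + I * W).im := by rw [im_shift]; linarith
    have k6 : (s + I * W).im ≤ 2 * T + W := by rw [im_shift]; linarith
    by_cases c1 : (s + I * W).im ≤ 2 * T
    · exact Or.inl (Set.mem_iUnion.2 ⟨i, k3, k4, k5, c1, g5'⟩)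
    · push Not at c1
      exact Or.inr (Set.mem_iUnion.2 ⟨i, k3, k4, by linarith, by linarith, g5'⟩)
  have h2 : ((⋃ i, zset (LS (χ i) (t i + W)) T (2 * T)).ncard : ℝ) ≤
      (⋃ i, zset (LS (χ i) (t i)) T (2 * T)).ncard +
        ∑ i, ((zset (LS (χ i) (t i)) (2 * T + 0) (2 * T + 0 + W)).ncard : ℝ) := by
    exact_mod_cast h1.trans ((Set.ncard_union_le _ _).trans
      (Nat.add_le_add_left (Set.ncard_iUnion_le_of_fintype _) _))
  have h3 : ∑ i, ((zset (LS (χ i) (t i)) (2 * T + 0) (2 * T + 0 + W)).ncard : ℝ) ≤ r * (η * UU T) := by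
    refine (Finset.sum_le_sum fun i _ => hsh i).trans ?_
    rw [Finset.sum_const, Finset.card_univ, nsmul_eq_mul]
  rw [eP]
  set P : ℝ := ((⋃ i, zset (LS (χ i) (t i)) T (2 * T)).ncard : ℝ) with hP
  set Q : ℝ := ((⋃ i, zset (LS (χ i) (t i + W)) T (2 * T)).ncard : ℝ) with hQ
  set z : ι → ℝ := fun i => ((zset (LS (χ i) (t i + W)) T (2 * T)).ncard : ℝ) with hz
  -- the pairs
  have h4 : ∀ i j, i ≠ j → z i + z j ≤ Q + (23 / 24 + η) * UU T := by
    intro i j hij
    refine (m2 i j hij).trans (add_le_add ?_ le_rfl)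
    have : (zset (LS (χ i) (t i + W)) T (2 * T) ∪ zset (LS (χ j) (t j + W)) T (2 * T)).ncard ≤
        (⋃ i, zset (LS (χ i) (t i + W)) T (2 * T)).ncard := by
      refine Set.ncard_le_ncard (Set.union_subset ?_ ?_) (Set.finite_iUnion f3)
      · exact Set.subset_iUnion (fun i => zset (LS (χ i) (t i + W)) T (2 * T)) i
      · exact Set.subset_iUnion (fun i => zset (LS (χ i) (t i + W)) T (2 * T)) j
    rw [hQ]
    exact_mod_cast this
  have h5 : 2 * ∑ i, z i ≤ r * (Q + (23 / 24 + η) * UU T) := by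
    have a1 : ∑ i, ∑ j ∈ Finset.univ.erase i, (z i + z j) ≤
        ∑ i, ∑ j ∈ Finset.univ.erase i, (Q + (23 / 24 + η) * UU T) :=
      Finset.sum_le_sum fun i _ => Finset.sum_le_sum fun j hj => h4 i j (Finset.ne_of_mem_erase hj).symm
    have a2 : ∀ i, ∑ j ∈ Finset.univ.erase i, (z i + z j) = (r - 2) * z i + ∑ j, z j := by
      intro i
      have b1 := Finset.sum_erase_add Finset.univ (fun j => z i + z j) (Finset.mem_univ i)
      rw [Finset.sum_add_distrib (s := Finset.univ), Finset.sum_const, Finset.card_univ, nsmul_eq_mul] at b1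
      linarith
    have a3 : ∀ i : ι, ∑ j ∈ Finset.univ.erase i, (Q + (23 / 24 + η) * UU T) =
        (r - 1) * (Q + (23 / 24 + η) * UU T) := by
      intro i
      rw [Finset.sum_const, Finset.card_erase_of_mem (Finset.mem_univ i), Finset.card_univ, nsmul_eq_mul,
        Nat.cast_sub (by omega), Nat.cast_one]
    rw [Finset.sum_congr rfl fun i _ => a2 i, Finset.sum_congr rfl fun i _ => a3 i,
      Finset.sum_add_distrib, ← Finset.mul_sum, Finset.sum_const, Finset.sum_const, Finset.card_univ,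
      nsmul_eq_mul, nsmul_eq_mul] at a1
    have a4 : (r - 1) * (2 * ∑ i, z i) ≤ (r - 1) * (r * (Q + (23 / 24 + η) * UU T)) := by
      linarith
    exact le_of_mul_le_mul_left a4 (by linarith)
  -- the conclusion
  have h6 : ∑ i, ((zset (Lf (χ i)) T (2 * T)).ncard : ℝ) ≤ ∑ i, z i + r * (η * UU T) := by
    refine (Finset.sum_le_sum fun i _ => hcmp i).trans ?_
    rw [Finset.sum_add_distrib, Finset.sum_const, Finset.card_univ, nsmul_eq_mul]
  have h7 : (∑ i, ((zset (Lf (χ i)) T (2 * T)).ncard : ℝ)) / r ≤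
      (Q + (23 / 24 + η) * UU T) / 2 + η * UU T := by
    rw [div_le_iff₀ hr0]
    nlinarith
  have h8 : Q ≤ P + r * (η * UU T) := by linarith
  have e9 : 3 * r / (3 * r + 1) = 1 - 2 * (1 / (6 * r + 2)) := by
    field_simp
    ring
  rw [← hr, e9] at m1
  have h10 : 10 * (1 + r) * (η * UU T) ≤ ε * UU T := by
    have := mul_le_mul_of_nonneg_right hη1 hU
    linarith
  have h11 : 0 ≤ η * UU T := mul_nonneg hη.le hU
  have h12 : 0 ≤ r * (η * UU T) := mul_nonneg hr0.le h11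
  nlinarith

/-- common zeros of two of the functions -/
theorem common {ι : Type} [Fintype ι] {q : ι → ℕ} [∀ i, NeZero (q i)]
    (χ : ∀ i, DirichletCharacter ℂ (q i)) (hχ : ∀ i, (χ i).IsPrimitive) (t : ι → ℝ)
    (hne : ∀ i j, i ≠ j → (∃ n : ℕ, χ i n ≠ χ j n) ∨ t i ≠ t j) {ε : ℝ} (hε : 0 < ε) :
    ∀ᶠ T : ℝ in atTop, ∀ i j, i ≠ j →
      pts (fun s => Lf (χ i) (s + I * t i) = 0 ∧ Lf (χ j) (s + I * t j) = 0) T ≤
        (23 / 24 + ε) * main T := by
  classical
  by_cases hι : Fintype.card ι = 0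
  · have : IsEmpty ι := Fintype.card_eq_zero_iff.1 hι
    exact Eventually.of_forall fun T i => this.elim i
  obtain ⟨W, hW⟩ : ∃ W : ℝ, W = ∑ i, |t i| := ⟨_, rfl⟩
  have hW0 : 0 ≤ W := by rw [hW]; exact Finset.sum_nonneg fun i _ => abs_nonneg _
  have hti : ∀ i, |t i| ≤ W := fun i => by
    rw [hW]; exact Finset.single_le_sum (fun j _ => abs_nonneg (t j)) (Finset.mem_univ i)
  have hτ : ∀ i, 0 ≤ t i + W := fun i => by
    have h2 := neg_abs_le (t i)
    linarith [hti i]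
  have hmain := unionpair χ hχ (fun i => t i + W) hτ (fun i j hij => by
    rcases hne i j hij with ⟨n, hn⟩ | h
    · exact Or.inl fun h => hn (h n)
    · exact Or.inr fun h' => h (add_right_cancel h')) (by omega) (ε := ε / 2) (by positivity)
  have hsh : ∀ᶠ T : ℝ in atTop, ∀ i, ((zset (LS (χ i) (t i + W)) (1 * T + -W) (1 * T + -W + W)).ncard : ℝ) ≤
      (ε / 2) * UU T := eventually_all.2 fun i => short' (hχ i) le_rfl _ _ _ (by positivity)
  filter_upwards [hmain, hsh, eventually_ge_atTop (W + 1)] with T hmain hsh hT i j hij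
  have h1 := hmain.2 i j hij
  set Zi := zset (LS (χ i) (t i + W)) T (2 * T) with hZi
  set Zj := zset (LS (χ j) (t j + W)) T (2 * T) with hZj
  have f3 : ∀ i, (zset (LS (χ i) (t i + W)) T (2 * T)).Finite := fun i =>
    fin_shift (hχ i) _ _ _ (by linarith [hτ i])
  have f4 : (zset (LS (χ i) (t i + W)) (1 * T + -W) (1 * T + -W + W)).Finite :=
    fin_shift (hχ i) _ _ _ (by have := neg_abs_le (t i); linarith [hti i])
  have h2 : (Zi ∪ Zj).ncard + (Zi ∩ Zj).ncard = Zi.ncard + Zj.ncard :=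
    Set.ncard_union_add_ncard_inter _ _ (f3 i) (f3 j)
  have h2' : ((Zi ∪ Zj).ncard : ℝ) + (Zi ∩ Zj).ncard = Zi.ncard + Zj.ncard := by exact_mod_cast h2
  have e1 : ∀ (k : ι) (s : ℂ), LS (χ k) (t k + W) (s - I * W) = Lf (χ k) (s + I * t k) := by
    intro k s
    unfold LS
    congr 1
    push_cast; ring
  have hinj : Function.Injective fun s : ℂ => s - I * W := sub_left_injective
  have h3 : {s : ℂ | 0 < s.re ∧ s.re < 1 ∧ T < s.im ∧ s.im ≤ 2 * T ∧
      (Lf (χ i) (s + I * t i) = 0 ∧ Lf (χ j) (s + I * t j) = 0)}.ncard ≤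
      ((Zi ∩ Zj) ∪ zset (LS (χ i) (t i + W)) (1 * T + -W) (1 * T + -W + W)).ncard := by
    rw [← Set.ncard_image_of_injective _ hinj]
    refine Set.ncard_le_ncard ?_ (((f3 i).inter_of_left _).union f4)
    rintro _ ⟨s, ⟨g1, g2, g3, g4, g5, g6⟩, rfl⟩
    have k3 : (s - I * W).re = s.re := by simp
    have k4 : (s - I * W).im = s.im - W := by simp
    have g5' : LS (χ i) (t i + W) (s - I * W) = 0 := by rw [e1]; exact g5
    have g6' : LS (χ j) (t j + W) (s - I * W) = 0 := by rw [e1]; exact g6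
    by_cases c1 : T < (s - I * W).im
    · left
      have c2 : (s - I * W).im ≤ 2 * T := by rw [k4]; linarith
      exact ⟨⟨by rw [k3]; exact g1, by rw [k3]; exact g2, c1, c2, g5'⟩,
        ⟨by rw [k3]; exact g1, by rw [k3]; exact g2, c1, c2, g6'⟩⟩
    · right
      push Not at c1
      refine ⟨by rw [k3]; exact g1, by rw [k3]; exact g2, by rw [k4]; linarith, by linarith, g5'⟩
  have h4 : pts (fun s => Lf (χ i) (s + I * t i) = 0 ∧ Lf (χ j) (s + I * t j) = 0) T ≤
      (Zi ∩ Zj).ncard + ((zset (LS (χ i) (t i + W)) (1 * T + -W) (1 * T + -W + W)).ncard : ℝ) := by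
    unfold pts
    exact_mod_cast h3.trans (Set.ncard_union_le _ _)
  have h5 := hsh i
  rw [main_eq]
  linarith

theorem result :
    -- distinct zeros of products of `r ≥ 2` functions
    (∀ (ι : Type) [Fintype ι] (q : ι → ℕ) [∀ i, NeZero (q i)] (χ : ∀ i, DirichletCharacter ℂ (q i))
        (t : ι → ℝ), (∀ i, (χ i).IsPrimitive) →
      (∀ i j, i ≠ j → (∃ n : ℕ, χ i n ≠ χ j n) ∨ t i ≠ t j) → 2 ≤ Fintype.card ι →
      ∀ ε : ℝ, 0 < ε → ∃ T₀ : ℝ, ∀ T : ℝ, T₀ ≤ T →
        (∑ i, Nd (Lf (χ i)) T) / Fintype.card ι +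
          (1 / 48 - 1 / (6 * Fintype.card ι + 2) - ε) * main T ≤
          Nd (fun s => ∏ i, Lf (χ i) (s + I * t i)) T ∧
        ∀ i j, i ≠ j → pts (fun s => Lf (χ i) (s + I * t i) = 0 ∧ Lf (χ j) (s + I * t j) = 0) T ≤
          (23 / 24 + ε) * main T) ∧
    -- translates of one function
    (∀ (q : ℕ) [NeZero q] (χ : DirichletCharacter ℂ q), χ.IsPrimitive → ∀ t : ℝ, t ≠ 0 →
      ∀ ε : ℝ, 0 < ε → ∃ T₀ : ℝ, ∀ T : ℝ, T₀ ≤ T →
        (25 / 18816 - ε) * main T ≤ pts (fun s => Lf χ s = 0 ∧ Lf χ (s + I * t) ≠ 0) T) := by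
  constructor
  · intro ι _ q _ χ t hχ hne hι ε hε
    obtain ⟨T₀, h⟩ := eventually_atTop.1 ((product χ hχ t hne hι hε).and (common χ hχ t hne hε))
    exact ⟨T₀, h⟩
  · intro q _ χ hχ t ht ε hε
    obtain ⟨T₀, h⟩ := eventually_atTop.1 (translate hχ ht hε)
    exact ⟨T₀, h⟩

end Pool.Agent.Results.MP_f259ea_nt.ZeroSets
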